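import Pool.Agent.Work.MP_db9399_lt.Interface

/-! # MP_db9399, THEOREM LT: unions of matchings, adjusters, numbers (helper83) -/

set_option autoImplicit false
set_option linter.unusedSectionVars false

namespace Pool.Agent.Work.MP_db9399_lt.helper83

open Finset Classical
open Pool.Agent.Work.MP_db9399_all (nb)
open Pool.Agent.Work.MP_db9399_nc (nn PEC Mts)

universe u

variable {V : Type u} [Fintype V]

/-- the support of an involution is even -/
theorem even_supp (K : V → V) (hK : ∀ v, K (K v) = v) :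
    Even (univ.filter (fun v => K v ≠ v)).card := by
  have h := Equiv.Perm.two_dvd_card_support (σ := (Function.Involutive.toPerm K hK)) (by
    ext v
    simp [pow_two, hK])
  rw [even_iff_two_dvd]
  have h2 : (Function.Involutive.toPerm K hK).support = univ.filter (fun v => K v ≠ v) := by
    ext v
    simp [Equiv.Perm.mem_support]
  rwa [h2] at h

/-- the union of two families of matchings with disjoint supports -/
noncomputable def jn (K1 K2 : ℕ → V → V) (b : ℕ) (v : V) : V :=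
  if K1 b v ≠ v then K1 b v else K2 b v

omit [Fintype V] in
theorem jn_left {K1 K2 : ℕ → V → V} {b : ℕ} {v : V} (h : K1 b v ≠ v) :
    jn K1 K2 b v = K1 b v := by
  rw [jn, if_pos h]

omit [Fintype V] in
theorem jn_right {K1 K2 : ℕ → V → V} {b : ℕ} {v : V} (h : K1 b v = v) :
    jn K1 K2 b v = K2 b v := by
  rw [jn, if_neg (by simpa using h)]

omit [Fintype V] in
theorem jn_fix {K1 K2 : ℕ → V → V} {b : ℕ} {v : V} :
    jn K1 K2 b v = v ↔ K1 b v = v ∧ K2 b v = v := by
  by_cases h : K1 b v = v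
  · rw [jn_right h]
    simp [h]
  · rw [jn_left h]
    simp [h]

theorem jn_mts {G : SimpleGraph V} {E : Finset ℕ} {K1 K2 : ℕ → V → V} (h1 : Mts G E K1)
    (h2 : Mts G E K2) (hd : ∀ b ∈ E, ∀ v, K1 b v ≠ v → K2 b v = v)
    (hx : ∀ b ∈ E, ∀ b' ∈ E, b ≠ b' → ∀ v, K1 b v ≠ v → K1 b v ≠ K2 b' v) :
    Mts G E (jn K1 K2) := by
  refine ⟨?_, ?_, ?_⟩
  · intro b hb v
    by_cases h : K1 b v = v
    · rw [jn_right h]
      by_cases h' : K2 b v = v
      · rw [h', jn_right h, h']
      · have h3 : K1 b (K2 b v) = K2 b v := by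
          by_contra hc
          have := hd b hb (K2 b v) hc
          rw [h2.inv b hb v] at this
          exact h' this.symm
        rw [jn_right h3, h2.inv b hb v]
    · rw [jn_left h]
      have h3 : K1 b (K1 b v) ≠ K1 b v := by
        rw [h1.inv b hb v]
        exact fun e => h e.symm
      rw [jn_left h3, h1.inv b hb v]
  · intro b hb v hv
    by_cases h : K1 b v = v
    · rw [jn_right h] at hv ⊢
      exact h2.adj b hb v hv
    · rw [jn_left h]
      exact h1.adj b hb v h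
  · intro b hb b' hb' hne v hv
    by_cases h : K1 b v = v
    · rw [jn_right h] at hv ⊢
      by_cases h' : K1 b' v = v
      · rw [jn_right h']
        exact h2.dis b hb b' hb' hne v hv
      · rw [jn_left h']
        exact (hx b' hb' b hb (Ne.symm hne) v h').symm
    · rw [jn_left h]
      by_cases h' : K1 b' v = v
      · rw [jn_right h']
        exact hx b hb b' hb' hne v h
      · rw [jn_left h']
        exact h1.dis b hb b' hb' hne v h

/-- matchings on two disjoint sets of colours -/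
noncomputable def gl (Q : Finset ℕ) (M K : ℕ → V → V) (b : ℕ) : V → V :=
  if b ∈ Q then K b else M b

theorem gl_mts {G : SimpleGraph V} {B Q : Finset ℕ} {M K : ℕ → V → V} (h1 : Mts G B M)
    (h2 : Mts G Q K) (hBQ : Disjoint B Q)
    (hx : ∀ b ∈ B, ∀ b' ∈ Q, ∀ v, M b v ≠ v → M b v ≠ K b' v) :
    Mts G (B ∪ Q) (gl Q M K) := by
  have hB : ∀ b ∈ B, gl Q M K b = M b := fun b hb => by
    rw [gl, if_neg (Finset.disjoint_left.mp hBQ hb)]
  have hQ : ∀ b ∈ Q, gl Q M K b = K b := fun b hb => by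
    rw [gl, if_pos hb]
  refine ⟨?_, ?_, ?_⟩
  · intro b hb v
    rcases Finset.mem_union.mp hb with h | h
    · rw [hB b h]
      exact h1.inv b h v
    · rw [hQ b h]
      exact h2.inv b h v
  · intro b hb v
    rcases Finset.mem_union.mp hb with h | h
    · rw [hB b h]
      exact h1.adj b h v
    · rw [hQ b h]
      exact h2.adj b h v
  · intro b hb b' hb' hne v
    rcases Finset.mem_union.mp hb with h | h
    · rcases Finset.mem_union.mp hb' with h' | h'
      · rw [hB b h, hB b' h']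
        exact h1.dis b h b' h' hne v
      · rw [hB b h, hQ b' h']
        exact hx b h b' h' v
    · rcases Finset.mem_union.mp hb' with h' | h'
      · rw [hQ b h, hB b' h']
        intro hv he
        exact hx b' h' b h v (by rw [← he]; exact hv) he.symm
      · rw [hQ b h, hQ b' h']
        exact h2.dis b h b' h' hne v

section adj
variable {G : SimpleGraph V} {F : V → Finset ℕ} {p : V → Fin 3} {C : Fin 3 → Finset ℕ} {h : ℕ}
  {su sv e1 e2 : ℕ → V}

/-- the adjusters of colour `b` -/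
noncomputable def aj (h : ℕ) (e1 e2 : ℕ → V) (f : ℕ → ℕ) (b : ℕ) (v : V) : V :=
  if hh : ∃ k, k < 4 * h ∧ f k = b ∧ e1 k = v then e2 hh.choose
  else if hh : ∃ k, k < 4 * h ∧ f k = b ∧ e2 k = v then e1 hh.choose else v

theorem spd_pne (H : SPD G F p C h su sv e1 e2) {k : ℕ} (hk : k < 4 * h) : p (e2 k) ≠ 0 := by
  rcases Nat.lt_or_ge k (2 * h) with h1 | h1
  · rw [H.p2 k h1]
    decide
  · rw [H.p3 k h1 hk]
    decide

theorem spd_ne (H : SPD G F p C h su sv e1 e2) {k k' : ℕ} (hk : k < 4 * h) (hk' : k' < 4 * h) :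
    e1 k ≠ e2 k' := by
  intro he
  have := spd_pne H hk'
  rw [← he, H.p1 k hk] at this
  exact this rfl

theorem aj_e1 (H : SPD G F p C h su sv e1 e2) {f : ℕ → ℕ} {k : ℕ} (hk : k < 4 * h) :
    aj h e1 e2 f (f k) (e1 k) = e2 k := by
  have hh : ∃ k', k' < 4 * h ∧ f k' = f k ∧ e1 k' = e1 k := ⟨k, hk, rfl, rfl⟩
  rw [aj, dif_pos hh]
  have h3 := hh.choose_spec
  rw [H.i1 (by simpa using h3.1) (by simpa using hk) h3.2.2]

theorem aj_e2 (H : SPD G F p C h su sv e1 e2) {f : ℕ → ℕ} {k : ℕ} (hk : k < 4 * h) :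
    aj h e1 e2 f (f k) (e2 k) = e1 k := by
  have hn : ¬ ∃ k', k' < 4 * h ∧ f k' = f k ∧ e1 k' = e2 k := by
    rintro ⟨k', hk', -, he⟩
    exact spd_ne H hk' hk he
  have hh : ∃ k', k' < 4 * h ∧ f k' = f k ∧ e2 k' = e2 k := ⟨k, hk, rfl, rfl⟩
  rw [aj, dif_neg hn, dif_pos hh]
  have h3 := hh.choose_spec
  rw [H.i2 (by simpa using h3.1) (by simpa using hk) h3.2.2]

theorem aj_cases (H : SPD G F p C h su sv e1 e2) {f : ℕ → ℕ} {b : ℕ} {v : V}
    (hv : aj h e1 e2 f b v ≠ v) : ∃ k, k < 4 * h ∧ f k = b ∧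
      ((e1 k = v ∧ aj h e1 e2 f b v = e2 k) ∨ (e2 k = v ∧ aj h e1 e2 f b v = e1 k)) := by
  by_cases h1 : ∃ k, k < 4 * h ∧ f k = b ∧ e1 k = v
  · obtain ⟨k, hk, hf, he⟩ := h1
    refine ⟨k, hk, hf, Or.inl ⟨he, ?_⟩⟩
    rw [← hf, ← he, aj_e1 H hk]
  · by_cases h2 : ∃ k, k < 4 * h ∧ f k = b ∧ e2 k = v
    · obtain ⟨k, hk, hf, he⟩ := h2
      refine ⟨k, hk, hf, Or.inr ⟨he, ?_⟩⟩
      rw [← hf, ← he, aj_e2 H hk]
    · rw [aj, dif_neg h1, dif_neg h2] at hv
      exact absurd rfl hv

theorem aj_mts (H : SPD G F p C h su sv e1 e2) (f : ℕ → ℕ) (E : Finset ℕ) :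
    Mts G E (aj h e1 e2 f) := by
  refine ⟨?_, ?_, ?_⟩
  · intro b _ v
    by_cases hv : aj h e1 e2 f b v = v
    · rw [hv, hv]
    · obtain ⟨k, hk, hf, h1 | h1⟩ := aj_cases H hv
      · rw [h1.2, ← hf, aj_e2 H hk, h1.1]
      · rw [h1.2, ← hf, aj_e1 H hk, h1.1]
  · intro b _ v hv
    obtain ⟨k, hk, hf, h1 | h1⟩ := aj_cases H hv
    · rw [h1.2, ← h1.1]
      exact H.ea k hk
    · rw [h1.2, ← h1.1]
      exact (H.ea k hk).symm
  · intro b _ b' _ hne v hv he
    have hv' : aj h e1 e2 f b' v ≠ v := by rw [← he]; exact hv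
    obtain ⟨k, hk, hf, h1⟩ := aj_cases H hv
    obtain ⟨k', hk', hf', h1'⟩ := aj_cases H hv'
    apply hne
    rcases h1 with h1 | h1 <;> rcases h1' with h1' | h1'
    · have := H.i1 (by simpa using hk) (by simpa using hk') (h1.1.trans h1'.1.symm)
      rw [← hf, ← hf', this]
    · exact absurd (h1.1.trans h1'.1.symm) (spd_ne H hk hk')
    · exact absurd (h1'.1.trans h1.1.symm) (spd_ne H hk' hk)
    · have := H.i2 (by simpa using hk) (by simpa using hk') (h1.1.trans h1'.1.symm)
      rw [← hf, ← hf', this]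

theorem aj_isA (H : SPD G F p C h su sv e1 e2) {f : ℕ → ℕ} {b : ℕ} {v : V}
    (hv : aj h e1 e2 f b v ≠ v) : isA h e1 e2 v (aj h e1 e2 f b v) := by
  obtain ⟨k, hk, hf, h1 | h1⟩ := aj_cases H hv
  · exact ⟨k, hk, Or.inl ⟨h1.1, h1.2.symm⟩⟩
  · exact ⟨k, hk, Or.inr ⟨h1.2.symm, h1.1⟩⟩

theorem isA_aj (H : SPD G F p C h su sv e1 e2) (f : ℕ → ℕ) {v w : V}
    (hv : isA h e1 e2 v w) : ∃ k, k < 4 * h ∧ aj h e1 e2 f (f k) v = w := by
  obtain ⟨k, hk, h1 | h1⟩ := hv
  · exact ⟨k, hk, by rw [← h1.1, ← h1.2, aj_e1 H hk]⟩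
  · exact ⟨k, hk, by rw [← h1.1, ← h1.2, aj_e2 H hk]⟩

theorem isA_ne (H : SPD G F p C h su sv e1 e2) {v w : V} (hv : isA h e1 e2 v w) :
    p v ≠ p w := by
  obtain ⟨k, hk, h1 | h1⟩ := hv
  · rw [← h1.1, ← h1.2, H.p1 k hk]
    exact (spd_pne H hk).symm
  · rw [← h1.1, ← h1.2, H.p1 k hk]
    exact spd_pne H hk

end adj

section num
variable {G : SimpleGraph V} {d x y h s : ℕ} {F : V → Finset ℕ} {p : V → Fin 3} {a : V → Bool}
  {C : Fin 3 → Finset ℕ}

theorem mem_nb {G : SimpleGraph V} {v w : V} : w ∈ nb G v ↔ G.Adj v w := by simp [nb]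

theorem mem_nn {G : SimpleGraph V} {R : Finset V} {v w : V} :
    w ∈ nn G R v ↔ w ∈ R ∧ w ≠ v ∧ ¬ G.Adj v w := by simp [nn]

theorem mem_us {F : V → Finset ℕ} {b : ℕ} {v : V} : v ∈ us F b ↔ b ∈ F v := by simp [us]

theorem mem_pt {p : V → Fin 3} {i : Fin 3} {v : V} : v ∈ pt p i ↔ p v = i := by simp [pt]

/-- number of vertices = 1 + degree + number of nonneighbours -/
theorem card_split (G : SimpleGraph V) (v : V) :
    Fintype.card V = 1 + (nb G v).card + (nn G univ v).card := by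
  have h1 : (univ : Finset V) = insert v (nb G v ∪ nn G univ v) := by
    ext w
    simp only [Finset.mem_univ, Finset.mem_insert, Finset.mem_union, mem_nb, mem_nn, true_and,
      true_iff]
    tauto
  have h2 : v ∉ nb G v ∪ nn G univ v := by
    simp [mem_nb, mem_nn]
  have h3 : Disjoint (nb G v) (nn G univ v) := by
    rw [Finset.disjoint_left]
    intro w hw hw'
    exact (mem_nn.mp hw').2.2 (mem_nb.mp hw)
  have h4 : (univ : Finset V).card = (insert v (nb G v ∪ nn G univ v)).card :=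
    congrArg Finset.card h1
  rw [Finset.card_univ, Finset.card_insert_of_notMem h2, Finset.card_union_of_disjoint h3] at h4
  omega

theorem pt_cells (p : V → Fin 3) (a : V → Bool) (i : Fin 3) :
    (pt p i).card = (cell p a i true).card + (cell p a i false).card := by
  have h1 : pt p i = cell p a i true ∪ cell p a i false := by
    ext v
    simp only [pt, cell, Finset.mem_union, Finset.mem_filter, Finset.mem_univ, true_and]
    cases a v <;> simp
  rw [h1, Finset.card_union_of_disjoint]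
  rw [Finset.disjoint_left]
  intro v hv hv'
  simp only [cell, Finset.mem_filter, Finset.mem_univ, true_and] at hv hv'
  rw [hv.2] at hv'
  exact absurd hv'.2 (by decide)

theorem pts_sum (p : V → Fin 3) :
    Fintype.card V = (pt p 0).card + (pt p 1).card + (pt p 2).card := by
  have h1 : (univ : Finset V).card = ∑ i : Fin 3, (pt p i).card := by
    rw [Finset.card_eq_sum_card_fiberwise (f := p) (t := univ) (fun _ _ => by simp)]
    rfl
  rw [← Finset.card_univ, h1, Fin.sum_univ_three]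

/-- the numbers of `LTH` -/
theorem lth_nums (H : LTH G d x y h s F p a C) :
    10 ^ 13 * x ≤ h ∧ d ≤ 7 * s ∧ (∀ i, 2 * s ≤ (pt p i).card + 2 * x) ∧
      (∀ i, (pt p i).card ≤ 2 * s) ∧ Nonempty V ∧ 6 * s ≤ Fintype.card V + 6 * x ∧
      Fintype.card V ≤ 6 * s ∧ (Fintype.card V ≤ d + 2 + x) ∧ d + 2 ≤ Fintype.card V + x := by
  have hx1 := H.x1
  have hxd := H.xd
  have hyh := H.yh
  have hhd := H.hd
  have hdh := H.dh
  have h1 : 10 ^ 13 * x ≤ h := by omega
  have hpt : ∀ i, 2 * s ≤ (pt p i).card + 2 * x := by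
    intro i
    rw [pt_cells p a i]
    have := (H.cs i true).2
    have := (H.cs i false).2
    omega
  have hpt2 : ∀ i, (pt p i).card ≤ 2 * s := by
    intro i
    rw [pt_cells p a i]
    have := (H.cs i true).1
    have := (H.cs i false).1
    omega
  have hV : Nonempty V := by
    have h2 : 0 < (pt p 0).card := by
      have := hpt 0
      have := H.Ccard 0
      omega
    obtain ⟨v, -⟩ := Finset.card_pos.mp h2
    exact ⟨v⟩
  obtain ⟨v⟩ := hV
  have h3 := card_split G v
  have h4 := H.deg v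
  have h5 := H.inn v
  have h6 := H.Fx v
  have h7 := pts_sum p
  have := hpt 0
  have := hpt 1
  have := hpt 2
  have := hpt2 0
  have := hpt2 1
  have := hpt2 2
  refine ⟨h1, by omega, hpt, hpt2, ⟨v⟩, by omega, by omega, by omega, by omega⟩

end num

end Pool.Agent.Work.MP_db9399_lt.helper83
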