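import Pool.Agent.Work.MP_db9399_lt_helper83.Lib

/-! # MP_db9399, THEOREM LT, block Q2R: the rounds with the colours of `Q2` (helper83) -/

set_option autoImplicit false
set_option linter.unusedSectionVars false

namespace Pool.Agent.Work.MP_db9399_lt.helper83

open Finset Classical
open Pool.Agent.Work.MP_db9399_all (nb)
open Pool.Agent.Work.MP_db9399_nc (nn PEC Mts)

universe u

variable {V : Type u} [Fintype V]

/-- the free vertices of colour `b` -/
def fr (F : V → Finset ℕ) (X : ℕ → Finset V) (K : ℕ → V → V) (b : ℕ) (v : V) : Prop :=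
  b ∉ F v ∧ v ∉ X b ∧ K b v = v

/-- the inner edges of the matchings `M b` -/
def ig (p : V → Fin 3) (B : Finset ℕ) (M : ℕ → V → V) : SimpleGraph V where
  Adj v w := v ≠ w ∧ p v = p w ∧ ∃ b ∈ B, M b v = w ∨ M b w = v
  symm := ⟨fun _ _ hh => ⟨hh.1.symm, hh.2.1.symm, by
    obtain ⟨b, hb, h1⟩ := hh.2.2
    exact ⟨b, hb, h1.symm⟩⟩⟩
  loopless := ⟨fun _ hh => hh.1 rfl⟩

section
variable {G : SimpleGraph V} {d x y h s : ℕ} {F : V → Finset ℕ} {p : V → Fin 3} {a : V → Bool}
  {C C0 : Fin 3 → Finset ℕ} {B Q Q1 Q2 : Finset ℕ} {su sv e1 e2 : ℕ → V} {N M K : ℕ → V → V}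
  {τ : ℕ → Fin 3 → Prop} {X X' : ℕ → Finset V}

theorem lg_G : lg G h p B e1 e2 M ≤ G := fun _ _ hh => hh.1

theorem mts_mono {G' G : SimpleGraph V} {E : Finset ℕ} {K : ℕ → V → V} (hG : G' ≤ G)
    (h : Mts G' E K) : Mts G E K :=
  ⟨h.inv, fun b hb v hv => hG (h.adj b hb v hv), h.dis⟩

/-- `|X b| = ` number of `i` with `τ b i` -/
theorem card_X (h3 : XS F p Q τ X) {b : ℕ} (hb : b ∈ Q) :
    (X b).card = (univ.filter (fun i => τ b i)).card := by
  rw [Finset.card_eq_sum_card_fiberwise (f := p) (t := univ) (fun _ _ => by simp),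
    Finset.card_filter]
  exact Finset.sum_congr rfl (fun i _ => h3.num b hb i)

theorem card_X_le (h3 : XS F p Q τ X) {b : ℕ} (hb : b ∈ Q) : (X b).card ≤ 3 := by
  rw [card_X h3 hb]
  exact (Finset.card_filter_le _ _).trans (by simp)

/-- few blocked colours at a vertex -/
theorem blk_v (hF : ∀ v, (F v).card ≤ x) (h1 : ST1 G h F p C Q1 X' e1 e2 M)
    (h2 : LQ G d h F p (cc C ∪ Q1) Q2 e1 e2 M K) (h3 : XS F p (Q1 ∪ Q2) τ X) (v : V) :
    1000 * (Q2.filter (fun b => ¬ fr F X K b v)).card ≤ 1000 * (x + 1) + h := by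
  have hsub : Q2.filter (fun b => ¬ fr F X K b v) ⊆
      F v ∪ (Q2.filter (fun b => v ∈ X b) ∪ Q2.filter (fun b => K b v ≠ v)) := by
    intro b hb
    simp only [Finset.mem_filter, fr, Finset.mem_union] at hb ⊢
    tauto
  have hc := Finset.card_le_card hsub
  have hc2 := Finset.card_union_le (F v) (Q2.filter (fun b => v ∈ X b) ∪
    Q2.filter (fun b => K b v ≠ v))
  have hc3 := Finset.card_union_le (Q2.filter (fun b => v ∈ X b)) (Q2.filter (fun b => K b v ≠ v))
  have hX : (Q2.filter (fun b => v ∈ X b)).card ≤ 1 := by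
    rw [Finset.card_le_one]
    intro b hb b' hb'
    simp only [Finset.mem_filter] at hb hb'
    by_contra hne
    exact Finset.disjoint_left.mp (h3.dis b (Finset.mem_union_right _ hb.1) b'
      (Finset.mem_union_right _ hb'.1) hne) hb.2 hb'.2
  have hK : (Q2.filter (fun b => K b v ≠ v)).card ≤ (univ.filter (fun w => G.Adj v w ∧
      p w ≠ p v ∧ ¬ isA h e1 e2 v w ∧ ∀ b ∈ cc C ∪ Q1, M b v ≠ w)).card := by
    refine Finset.card_le_card_of_injOn (fun b => K b v) ?_ ?_
    · intro b hb
      simp only [Finset.coe_filter, Set.mem_ofPred_eq] at hb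
      have h5 := h2.mts.adj b hb.1 v hb.2
      simp only [Finset.coe_filter, Finset.mem_univ, true_and, Set.mem_ofPred_eq]
      exact ⟨h5.1, h5.2.1, h5.2.2.1, fun b' hb' => (h5.2.2.2 b' hb').1⟩
    · intro b hb b' hb' he
      simp only [Finset.coe_filter, Set.mem_ofPred_eq] at hb hb'
      by_contra hne
      exact h2.mts.dis b hb.1 b' hb'.1 hne v hb.2 he
  have h4 := h1.lam v
  have h6 := hF v
  omega

/-- few blocked adjusters of a colour -/
theorem blk_b (H : SPD G F p C h su sv e1 e2) (hF : ∀ b, (us F b).card ≤ y)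
    (h2 : LQ G d h F p (cc C ∪ Q1) Q2 e1 e2 M K) (h3 : XS F p (Q1 ∪ Q2) τ X) {b : ℕ}
    (hb : b ∈ Q2) (A : ℕ) (g : ℕ → ℕ) (hg : ∀ k < A, g k < 4 * h)
    (hgi : ∀ k < A, ∀ k' < A, g k = g k' → k = k') :
    5 * ((range A).filter (fun k => ¬ (fr F X K b (e1 (g k)) ∧ fr F X K b (e2 (g k))))).card ≤
      5 * y + 15 + h := by
  have hc : ((range A).filter (fun k => ¬ (fr F X K b (e1 (g k)) ∧
      fr F X K b (e2 (g k))))).card ≤ (us F b ∪ (X b ∪ univ.filter (fun v => K b v ≠ v ∧
        ∃ k < 4 * h, v = e1 k ∨ v = e2 k))).card := by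
    refine Finset.card_le_card_of_injOn (fun k => if fr F X K b (e1 (g k)) then e2 (g k)
      else e1 (g k)) ?_ ?_
    · intro k hk
      simp only [Finset.coe_filter, Finset.mem_range, Set.mem_ofPred_eq] at hk
      simp only [Finset.coe_union, Set.mem_union, Finset.mem_coe, mem_us, Finset.mem_filter,
        Finset.mem_univ, true_and]
      by_cases h5 : fr F X K b (e1 (g k))
      · rw [if_pos h5]
        have h6 : ¬ fr F X K b (e2 (g k)) := fun h7 => hk.2 ⟨h5, h7⟩
        by_contra hcon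
        apply h6
        refine ⟨fun h7 => hcon (Or.inl h7), fun h7 => hcon (Or.inr (Or.inl h7)), ?_⟩
        by_contra h7
        exact hcon (Or.inr (Or.inr ⟨h7, g k, hg k hk.1, Or.inr rfl⟩))
      · rw [if_neg h5]
        by_contra hcon
        apply h5
        refine ⟨fun h7 => hcon (Or.inl h7), fun h7 => hcon (Or.inr (Or.inl h7)), ?_⟩
        by_contra h7
        exact hcon (Or.inr (Or.inr ⟨h7, g k, hg k hk.1, Or.inl rfl⟩))
    · intro k hk k' hk' he
      simp only [Finset.coe_filter, Finset.mem_range, Set.mem_ofPred_eq] at hk hk'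
      apply hgi k hk.1 k' hk'.1
      have m1 : g k ∈ (range (4 * h) : Set ℕ) := by simpa using hg k hk.1
      have m2 : g k' ∈ (range (4 * h) : Set ℕ) := by simpa using hg k' hk'.1
      by_cases h5 : fr F X K b (e1 (g k)) <;> by_cases h6 : fr F X K b (e1 (g k')) <;>
        simp only [h5, h6, if_true, if_false] at he
      · exact H.i2 (by simpa using hg k hk.1) (by simpa using hg k' hk'.1) he
      · exact absurd he.symm (spd_ne H (hg k' hk'.1) (hg k hk.1))
      · exact absurd he (spd_ne H (hg k hk.1) (hg k' hk'.1))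
      · exact H.i1 (by simpa using hg k hk.1) (by simpa using hg k' hk'.1) he
  have hc2 := Finset.card_union_le (us F b) (X b ∪ univ.filter (fun v => K b v ≠ v ∧
        ∃ k < 4 * h, v = e1 k ∨ v = e2 k))
  have hc3 := Finset.card_union_le (X b) (univ.filter (fun v => K b v ≠ v ∧
        ∃ k < 4 * h, v = e1 k ∨ v = e2 k))
  have h4 := h2.szA b hb
  have h5 := card_X_le h3 (Finset.mem_union_right Q1 hb)
  have h6 := hF b
  omega

/-- the colours of the adjusters of one type -/
theorem ex_f (hA : Stmt_ADJ) (H : LTH G d x y h s F p a C0) (h0 : SPD G F p C h su sv e1 e2)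
    (h1 : ST1 G h F p C Q1 X' e1 e2 M) (h2 : LQ G d h F p (cc C ∪ Q1) Q2 e1 e2 M K)
    (h3 : XS F p (Q1 ∪ Q2) τ X) (hq2 : 98 * h ≤ 100 * Q2.card) (hq3 : 100 * Q2.card ≤ 102 * h)
    (i : Fin 3) (hev : Even (∑ b ∈ Q2,
      (univ.filter (fun v => p v = i ∧ b ∉ F v ∧ v ∉ X b ∧ K b v = v)).card))
    (g : ℕ → ℕ) (hg : ∀ k < 2 * h, g k < 4 * h)
    (hgi : ∀ k < 2 * h, ∀ k' < 2 * h, g k = g k' → k = k') :
    ∃ f : ℕ → ℕ, (∀ k < 2 * h, f k ∈ Q2 ∧ fr F X K (f k) (e1 (g k)) ∧
      fr F X K (f k) (e2 (g k))) ∧ ∀ b ∈ Q2,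
      (Odd ((range (2 * h)).filter (fun k => f k = b)).card ↔
        Odd (univ.filter (fun v => p v = i ∧ b ∉ F v ∧ v ∉ X b ∧ K b v = v)).card) ∧
      ((range (2 * h)).filter (fun k => f k = b)).card ≤ 17 := by
  obtain ⟨n1, n2, n3, n4, n5, n6, n7, n8, n9⟩ := lth_nums H
  have hyh := H.yh
  have hx1 := H.x1
  obtain ⟨f, hf1, hf2⟩ := hA (2 * h) (2 * (x + 1 + h / 1000)) (y + 3 + h / 5) Q2
    (fun k b => ¬ (fr F X K b (e1 (g k)) ∧ fr F X K b (e2 (g k))))
    (fun b => Odd (univ.filter (fun v => p v = i ∧ b ∉ F v ∧ v ∉ X b ∧ K b v = v)).card)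
    (by
      intro k hk
      refine (Finset.card_le_card (t := Q2.filter (fun b => ¬ fr F X K b (e1 (g k))) ∪
          Q2.filter (fun b => ¬ fr F X K b (e2 (g k)))) ?_).trans ?_
      · intro b hb
        simp only [Finset.mem_filter, Finset.mem_union] at hb ⊢
        tauto
      have hc2 := Finset.card_union_le (Q2.filter (fun b => ¬ fr F X K b (e1 (g k))))
          (Q2.filter (fun b => ¬ fr F X K b (e2 (g k))))
      have hc3 := blk_v H.Fx h1 h2 h3 (e1 (g k))
      have hc4 := blk_v H.Fx h1 h2 h3 (e2 (g k))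
      omega)
    (by
      intro b hb
      have := blk_b h0 H.load h2 h3 hb (2 * h) g hg hgi
      exact (Finset.card_le_card (t := (range (2 * h)).filter (fun k => ¬ (fr F X K b (e1 (g k)) ∧
        fr F X K b (e2 (g k))))) (fun k hk => by simpa using hk)).trans (by omega))
    (by omega) (by omega)
    (by
      rw [Nat.even_add]
      constructor
      · intro _
        convert (Finset.even_sum_iff_even_card_odd _).mp hev
      · intro _
        exact ⟨h, by ring⟩)
  refine ⟨f, fun k hk => ?_, hf2⟩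
  obtain ⟨h5, h6⟩ := hf1 k hk
  exact ⟨h5, not_not.mp h6⟩

/-- what the adjusters do -/
structure AJ (F : V → Finset ℕ) (p : V → Fin 3) (X : ℕ → Finset V) (h : ℕ) (Q2 : Finset ℕ)
    (K : ℕ → V → V) (e1 e2 : ℕ → V) (f : ℕ → ℕ) : Prop where
  Q : ∀ k < 4 * h, f k ∈ Q2
  a1 : ∀ k < 4 * h, fr F X K (f k) (e1 k)
  a2 : ∀ k < 4 * h, fr F X K (f k) (e2 k)
  ev : ∀ i : Fin 3, i ≠ 0 → ∀ b ∈ Q2, Even (univ.filter (fun v => p v = i ∧ b ∉ F v ∧ v ∉ X b ∧
    K b v = v ∧ aj h e1 e2 f b v = v)).card
  sz : ∀ b ∈ Q2, (univ.filter (fun v => aj h e1 e2 f b v ≠ v)).card ≤ 68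

theorem aj_part (h0 : SPD G F p C h su sv e1 e2) (f : ℕ → ℕ) (i : Fin 3) (g : ℕ → ℕ)
    (hg : ∀ k < 2 * h, g k < 4 * h ∧ p (e2 (g k)) = i)
    (hgi : ∀ k < 2 * h, ∀ k' < 2 * h, g k = g k' → k = k')
    (hgs : ∀ k < 4 * h, p (e2 k) = i → ∃ k' < 2 * h, g k' = k) (hi : i ≠ 0) (b : ℕ) :
    (univ.filter (fun v => p v = i ∧ aj h e1 e2 f b v ≠ v)).card =
      ((range (2 * h)).filter (fun k => f (g k) = b)).card := by
  symm
  apply Finset.card_bij (fun k _ => e2 (g k))
  · intro k hk
    simp only [Finset.mem_filter, Finset.mem_range, Finset.mem_univ, true_and] at hk ⊢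
    refine ⟨(hg k hk.1).2, ?_⟩
    rw [← hk.2, aj_e2 h0 (hg k hk.1).1]
    exact spd_ne h0 (hg k hk.1).1 (hg k hk.1).1
  · intro k hk k' hk' he
    simp only [Finset.mem_filter, Finset.mem_range] at hk hk'
    exact hgi k hk.1 k' hk'.1
      (h0.i2 (by simpa using (hg k hk.1).1) (by simpa using (hg k' hk'.1).1) he)
  · intro v hv
    simp only [Finset.mem_filter, Finset.mem_univ, true_and] at hv
    obtain ⟨k, hk, hf, h5 | h5⟩ := aj_cases h0 hv.2
    · exact absurd (hv.1.symm.trans (by rw [← h5.1, h0.p1 k hk])) hi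
    · obtain ⟨k', hk', hk2⟩ := hgs k hk (by rw [h5.1, hv.1])
      refine ⟨k', ?_, by rw [hk2, h5.1]⟩
      simp only [Finset.mem_filter, Finset.mem_range]
      exact ⟨hk', by rw [hk2, hf]⟩

theorem aj_split (h0 : SPD G F p C h su sv e1 e2) (f : ℕ → ℕ)
    (hf : ∀ k < 4 * h, fr F X K (f k) (e1 k) ∧ fr F X K (f k) (e2 k)) (i : Fin 3) (b : ℕ) :
    (univ.filter (fun v => p v = i ∧ b ∉ F v ∧ v ∉ X b ∧ K b v = v)).card =
      (univ.filter (fun v => p v = i ∧ b ∉ F v ∧ v ∉ X b ∧ K b v = v ∧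
        aj h e1 e2 f b v = v)).card +
      (univ.filter (fun v => p v = i ∧ aj h e1 e2 f b v ≠ v)).card := by
  rw [← Finset.card_union_of_disjoint]
  · congr 1
    ext v
    simp only [Finset.mem_filter, Finset.mem_univ, true_and, Finset.mem_union]
    constructor
    · intro hv
      by_cases h5 : aj h e1 e2 f b v = v
      · exact Or.inl ⟨hv.1, hv.2.1, hv.2.2.1, hv.2.2.2, h5⟩
      · exact Or.inr ⟨hv.1, h5⟩
    · rintro (hv | hv)
      · exact ⟨hv.1, hv.2.1, hv.2.2.1, hv.2.2.2.1⟩
      · obtain ⟨k, hk, hf', h6 | h6⟩ := aj_cases h0 hv.2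
        · have h7 := (hf k hk).1
          rw [hf', h6.1] at h7
          exact ⟨hv.1, h7.1, h7.2.1, h7.2.2⟩
        · have h7 := (hf k hk).2
          rw [hf', h6.1] at h7
          exact ⟨hv.1, h7.1, h7.2.1, h7.2.2⟩
  · rw [Finset.disjoint_left]
    intro v hv hv'
    simp only [Finset.mem_filter, Finset.mem_univ, true_and] at hv hv'
    exact hv'.2 hv.2.2.2.2

theorem ex_AJ (hA : Stmt_ADJ) (H : LTH G d x y h s F p a C0) (h0 : SPD G F p C h su sv e1 e2)
    (h1 : ST1 G h F p C Q1 X' e1 e2 M) (h2 : LQ G d h F p (cc C ∪ Q1) Q2 e1 e2 M K)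
    (h3 : XS F p (Q1 ∪ Q2) τ X) (hq2 : 98 * h ≤ 100 * Q2.card) (hq3 : 100 * Q2.card ≤ 102 * h)
    (hev : ∀ i : Fin 3, i ≠ 0 → Even (∑ b ∈ Q2,
      (univ.filter (fun v => p v = i ∧ b ∉ F v ∧ v ∉ X b ∧ K b v = v)).card)) :
    ∃ f, AJ F p X h Q2 K e1 e2 f := by
  obtain ⟨f1, hf1, hf1'⟩ := ex_f hA H h0 h1 h2 h3 hq2 hq3 1 (hev 1 (by decide)) (fun k => k)
    (fun k hk => by omega) (fun k _ k' _ he => he)
  obtain ⟨f2, hf2, hf2'⟩ := ex_f hA H h0 h1 h2 h3 hq2 hq3 2 (hev 2 (by decide))
    (fun k => 2 * h + k) (fun k hk => by omega) (fun k _ k' _ he => by omega)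
  have hff : ∀ k < 4 * h, (if k < 2 * h then f1 k else f2 (k - 2 * h)) ∈ Q2 ∧
      fr F X K (if k < 2 * h then f1 k else f2 (k - 2 * h)) (e1 k) ∧
      fr F X K (if k < 2 * h then f1 k else f2 (k - 2 * h)) (e2 k) := by
    intro k hk
    by_cases h5 : k < 2 * h
    · rw [if_pos h5]
      exact hf1 k h5
    · rw [if_neg h5]
      have h6 := hf2 (k - 2 * h) (by omega)
      have h7 : 2 * h + (k - 2 * h) = k := by omega
      simp only [h7] at h6
      exact h6
  have c1 : ∀ b, ((range (2 * h)).filter (fun k => (if k < 2 * h then f1 k else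
      f2 (k - 2 * h)) = b)).card = ((range (2 * h)).filter (fun k => f1 k = b)).card := by
    intro b
    congr 1
    apply Finset.filter_congr
    intro k hk
    rw [if_pos (Finset.mem_range.mp hk)]
  have c2 : ∀ b, ((range (2 * h)).filter (fun k => (if 2 * h + k < 2 * h then f1 (2 * h + k) else
      f2 (2 * h + k - 2 * h)) = b)).card = ((range (2 * h)).filter (fun k => f2 k = b)).card := by
    intro b
    congr 1
    apply Finset.filter_congr
    intro k hk
    rw [if_neg (by omega), Nat.add_sub_cancel_left]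
  have p1 := fun b => aj_part h0 (fun k => if k < 2 * h then f1 k else f2 (k - 2 * h)) 1
    (fun k => k) (fun k hk => ⟨by omega, h0.p2 k hk⟩) (fun k _ k' _ he => he)
    (fun k hk hp => ⟨k, by
      by_contra hc
      rw [h0.p3 k (by omega) hk] at hp
      exact absurd hp (by decide), rfl⟩) (by decide) b
  have p2 := fun b => aj_part h0 (fun k => if k < 2 * h then f1 k else f2 (k - 2 * h)) 2
    (fun k => 2 * h + k) (fun k hk => ⟨by omega, h0.p3 _ (by omega) (by omega)⟩)
    (fun k _ k' _ he => by omega)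
    (fun k hk hp => ⟨k - 2 * h, by
      by_contra hc
      omega, by
      by_contra hc
      have : k < 2 * h := by omega
      rw [h0.p2 k this] at hp
      exact absurd hp (by decide)⟩) (by decide) b
  refine ⟨fun k => if k < 2 * h then f1 k else f2 (k - 2 * h), fun k hk => (hff k hk).1,
    fun k hk => (hff k hk).2.1, fun k hk => (hff k hk).2.2, ?_, ?_⟩
  · intro i hi b hb
    have hi' : i = 1 ∨ i = 2 := by
      revert hi
      revert i
      decide
    have h5 := aj_split (X := X) (F := F) (K := K) h0 (fun k => if k < 2 * h then f1 k else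
      f2 (k - 2 * h)) (fun k hk => (hff k hk).2) i b
    rcases hi' with rfl | rfl
    · rw [p1 b, c1 b] at h5
      have h6 := (hf1' b hb).1
      rw [h5] at h6
      rw [← Nat.not_odd_iff_even]
      intro h7
      rw [Nat.odd_add] at h6
      by_cases h8 : Odd ((range (2 * h)).filter (fun k => f1 k = b)).card
      · have := (h6.mp h8).mp h7
        exact absurd h8 (Nat.not_odd_iff_even.mpr this)
      · rw [Nat.not_odd_iff_even] at h8
        have := h6.mpr ⟨fun _ => h8, fun _ => h7⟩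
        exact absurd this (Nat.not_odd_iff_even.mpr h8)
    · rw [p2 b, c2 b] at h5
      have h6 := (hf2' b hb).1
      rw [h5] at h6
      rw [← Nat.not_odd_iff_even]
      intro h7
      rw [Nat.odd_add] at h6
      by_cases h8 : Odd ((range (2 * h)).filter (fun k => f2 k = b)).card
      · have := (h6.mp h8).mp h7
        exact absurd h8 (Nat.not_odd_iff_even.mpr this)
      · rw [Nat.not_odd_iff_even] at h8
        have := h6.mpr ⟨fun _ => h8, fun _ => h7⟩
        exact absurd this (Nat.not_odd_iff_even.mpr h8)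
  · intro b hb
    have q1 := (hf1' b hb).2
    have q2 := (hf2' b hb).2
    rw [← c1 b, ← p1 b] at q1
    rw [← c2 b, ← p2 b] at q2
    set J := aj h e1 e2 (fun k => if k < 2 * h then f1 k else f2 (k - 2 * h)) b with hJ
    have hsub : univ.filter (fun v => J v ≠ v) ⊆
        (univ.filter (fun v => p v = 1 ∧ J v ≠ v) ∪ univ.filter (fun v => p v = 2 ∧ J v ≠ v)) ∪
        (univ.filter (fun v => p v = 1 ∧ J v ≠ v) ∪
          univ.filter (fun v => p v = 2 ∧ J v ≠ v)).image J := by
      intro v hv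
      simp only [Finset.mem_filter, Finset.mem_univ, true_and] at hv
      obtain ⟨k, hk, hf', h6⟩ := aj_cases h0 hv
      have h7 : p (e2 k) = 1 ∨ p (e2 k) = 2 := by
        rcases Nat.lt_or_ge k (2 * h) with h8 | h8
        · exact Or.inl (h0.p2 k h8)
        · exact Or.inr (h0.p3 k h8 hk)
      rcases h6 with h6 | h6
      · apply Finset.mem_union_right
        rw [Finset.mem_image]
        refine ⟨e2 k, ?_, ?_⟩
        · simp only [Finset.mem_filter, Finset.mem_univ, true_and, Finset.mem_union]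
          have h9 : J (e2 k) ≠ e2 k := by
            rw [hJ, ← hf', aj_e2 h0 hk]
            exact spd_ne h0 hk hk
          rcases h7 with h7 | h7
          · exact Or.inl ⟨h7, h9⟩
          · exact Or.inr ⟨h7, h9⟩
        · rw [hJ, ← hf', aj_e2 h0 hk, h6.1]
      · apply Finset.mem_union_left
        simp only [Finset.mem_filter, Finset.mem_univ, true_and, Finset.mem_union]
        rw [h6.1] at h7
        rcases h7 with h7 | h7
        · exact Or.inl ⟨h7, hv⟩
        · exact Or.inr ⟨h7, hv⟩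
    have hc := Finset.card_le_card hsub
    have hc1 := Finset.card_union_le (univ.filter (fun v => p v = 1 ∧ J v ≠ v))
      (univ.filter (fun v => p v = 2 ∧ J v ≠ v))
    have hc2 := Finset.card_image_le (f := J) (s := univ.filter (fun v => p v = 1 ∧ J v ≠ v) ∪
          univ.filter (fun v => p v = 2 ∧ J v ≠ v))
    have hc3 := Finset.card_union_le (univ.filter (fun v => p v = 1 ∧ J v ≠ v) ∪
      univ.filter (fun v => p v = 2 ∧ J v ≠ v)) ((univ.filter (fun v => p v = 1 ∧ J v ≠ v) ∪
          univ.filter (fun v => p v = 2 ∧ J v ≠ v)).image J)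
    omega

/-- `K b` and the adjusters -/
theorem KJ_mts (h0 : SPD G F p C h su sv e1 e2) (h2 : LQ G d h F p B Q2 e1 e2 M K) {f : ℕ → ℕ}
    (hf : AJ F p X h Q2 K e1 e2 f) : Mts G Q2 (jn K (aj h e1 e2 f)) := by
  refine jn_mts (mts_mono lg_G h2.mts) (aj_mts h0 f Q2) ?_ ?_
  · intro b _ v hv
    by_contra hc
    obtain ⟨k, hk, hf', h6 | h6⟩ := aj_cases h0 hc
    · have h7 := hf.a1 k hk
      rw [hf', h6.1] at h7
      exact hv h7.2.2
    · have h7 := hf.a2 k hk
      rw [hf', h6.1] at h7
      exact hv h7.2.2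
  · intro b hb b' _ _ v hv he
    have h5 := h2.mts.adj b hb v hv
    apply h5.2.2.1
    rw [he]
    exact aj_isA h0 (by rw [← he]; exact hv)

theorem aj_fr (h0 : SPD G F p C h su sv e1 e2) {f : ℕ → ℕ}
    (hf : AJ F p X h Q2 K e1 e2 f) {b : ℕ} {v : V} (hv : aj h e1 e2 f b v ≠ v) :
    fr F X K b v := by
  obtain ⟨k, hk, hf', h6 | h6⟩ := aj_cases h0 hv
  · have h7 := hf.a1 k hk
    rwa [hf', h6.1] at h7
  · have h7 := hf.a2 k hk
    rwa [hf', h6.1] at h7

/-- the number of remaining vertices is even in all parts -/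
theorem ev_all (h0 : SPD G F p C h su sv e1 e2) (h2 : LQ G d h F p B Q2 e1 e2 M K)
    (h3 : XS F p (Q1 ∪ Q2) τ X) (h4 : TG F p C (Q1 ∪ Q2) τ)
    (hXK : ∀ b ∈ Q2, ∀ v ∈ X b, K b v = v) {f : ℕ → ℕ}
    (hf : AJ F p X h Q2 K e1 e2 f) (i : Fin 3) {b : ℕ} (hb : b ∈ Q2) :
    Even (univ.filter (fun v => p v = i ∧ b ∉ F v ∧ v ∉ X b ∧
      jn K (aj h e1 e2 f) b v = v)).card := by
  have hKJ := KJ_mts h0 h2 hf
  have hb' := Finset.mem_union_right Q1 hb
  have hi : ∀ i : Fin 3, i ≠ 0 → Even (univ.filter (fun v => p v = i ∧ b ∉ F v ∧ v ∉ X b ∧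
      jn K (aj h e1 e2 f) b v = v)).card := by
    intro i hi
    have := hf.ev i hi b hb
    simp only [jn_fix]
    exact this
  by_cases hi0 : i = 0
  swap
  · exact hi i hi0
  subst hi0
  have e1' := hi 1 (by decide)
  have e2' := hi 2 (by decide)
  have hS := even_supp (jn K (aj h e1 e2 f) b) (hKJ.inv b hb)
  have hX := h4.odd b hb'
  rw [← card_X h3 hb'] at hX
  have htot : (univ \ us F b).card = (X b).card +
      (univ.filter (fun v => jn K (aj h e1 e2 f) b v ≠ v)).card +
      (univ.filter (fun v => b ∉ F v ∧ v ∉ X b ∧ jn K (aj h e1 e2 f) b v = v)).card := by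
    rw [← Finset.card_union_of_disjoint, ← Finset.card_union_of_disjoint]
    · congr 1
      ext v
      simp only [Finset.mem_sdiff, Finset.mem_univ, true_and, mem_us, Finset.mem_union,
        Finset.mem_filter]
      constructor
      · intro hv
        by_cases h5 : v ∈ X b
        · exact Or.inl (Or.inl h5)
        · by_cases h6 : jn K (aj h e1 e2 f) b v = v
          · exact Or.inr ⟨hv, h5, h6⟩
          · exact Or.inl (Or.inr h6)
      · rintro ((hv | hv) | hv)
        · exact h3.XF b hb' v hv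
        · by_cases h5 : K b v = v
          · have h6 : aj h e1 e2 f b v ≠ v := fun h7 => hv (jn_fix.mpr ⟨h5, h7⟩)
            exact (aj_fr h0 hf h6).1
          · exact h2.KF b hb v h5
        · exact hv.1
    · rw [Finset.disjoint_left]
      intro v hv hv'
      simp only [Finset.mem_filter, Finset.mem_univ, true_and, Finset.mem_union] at hv hv'
      rcases hv with hv | hv
      · exact hv'.2.1 hv
      · exact hv hv'.2.2
    · rw [Finset.disjoint_left]
      intro v hv hv'
      simp only [Finset.mem_filter, Finset.mem_univ, true_and] at hv'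
      by_cases h5 : K b v = v
      · have h6 : aj h e1 e2 f b v ≠ v := fun h7 => hv' (jn_fix.mpr ⟨h5, h7⟩)
        exact (aj_fr h0 hf h6).2.1 hv
      · exact h5 (hXK b hb v hv)
  have hsum : (univ.filter (fun v => b ∉ F v ∧ v ∉ X b ∧ jn K (aj h e1 e2 f) b v = v)).card =
      (univ.filter (fun v => p v = 0 ∧ b ∉ F v ∧ v ∉ X b ∧ jn K (aj h e1 e2 f) b v = v)).card +
      (univ.filter (fun v => p v = 1 ∧ b ∉ F v ∧ v ∉ X b ∧ jn K (aj h e1 e2 f) b v = v)).card +
      (univ.filter (fun v => p v = 2 ∧ b ∉ F v ∧ v ∉ X b ∧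
        jn K (aj h e1 e2 f) b v = v)).card := by
    rw [Finset.card_eq_sum_card_fiberwise (f := p) (t := univ) (fun _ _ => by simp),
      Fin.sum_univ_three]
    congr 1
    · congr 1
      · congr 1
        ext v
        simp only [Finset.mem_filter, Finset.mem_univ, true_and]
        tauto
      · congr 1
        ext v
        simp only [Finset.mem_filter, Finset.mem_univ, true_and]
        tauto
    · congr 1
      ext v
      simp only [Finset.mem_filter, Finset.mem_univ, true_and]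
      tauto
  rw [Nat.even_iff] at e1' e2' hS ⊢
  simp only [Nat.odd_iff] at hX
  omega

theorem stmt_Q2R (hA : Stmt_ADJ) (hP : Stmt_PARI.{u}) (hC : Stmt_COMPR.{u}) :
    Stmt_Q2R.{u} := by
  intro V _ G d x y h s F p a C0 C Q1 Q2 su sv e1 e2 N M K τ X H P T XX S L hXK
  have h0 := P.spd
  obtain ⟨f, hf⟩ := ex_AJ hA H h0 S L XX P.q2 P.q3
    (hP G d x y h s F p a C0 C Q1 Q2 su sv e1 e2 N M K τ X H P T XX S L hXK)
  obtain ⟨n1, n2, n3, n4, n5, n6, n7, n8, n9⟩ := lth_nums H
  have hx1 := H.x1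
  have hyh := H.yh
  have hhd := H.hd
  have hq3 := P.q3
  have hKJ := KJ_mts h0 L hf
  set K1 := jn K (aj h e1 e2 f) with hK1
  -- support of `K1`
  have hsupp : ∀ b ∈ Q2, ∀ v, K1 b v ≠ v → b ∉ F v ∧ v ∉ X b ∧ p (K1 b v) ≠ p v := by
    intro b hb v hv
    by_cases h5 : K b v = v
    · have h6 : aj h e1 e2 f b v ≠ v := fun h7 => hv (jn_fix.mpr ⟨h5, h7⟩)
      have h7 := aj_fr h0 hf h6
      refine ⟨h7.1, h7.2.1, ?_⟩
      rw [hK1, jn_right h5]
      exact (isA_ne h0 (aj_isA h0 h6)).symm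
    · refine ⟨L.KF b hb v h5, fun h6 => h5 (hXK b hb v h6), ?_⟩
      rw [hK1, jn_left h5]
      exact (L.mts.adj b hb v h5).2.1
  have hcol : ∀ i : Fin 3, ∃ m : ℕ → V → V, Mts G Q2 m ∧
      (∀ b ∈ Q2, ∀ v, m b v ≠ v ↔ p v = i ∧ b ∉ F v ∧ v ∉ X b ∧ K1 b v = v) ∧
      ∀ b ∈ Q2, ∀ v, m b v ≠ v → ¬ (ig p (cc C ∪ Q1) M).Adj v (m b v) := by
    intro i
    obtain ⟨m, hm1, hm2, hm3⟩ := hC G (ig p (cc C ∪ Q1) M) (pt p i) Q2
      (x + h / 1000 + Q2.card)
      (fun b => univ.filter (fun v => ¬ (b ∉ F v ∧ v ∉ X b ∧ K1 b v = v)))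
      (by
        intro b hb
        have h5 := ev_all h0 L XX T hXK hf i hb
        convert h5 using 2
        ext v
        simp only [Finset.mem_sdiff, mem_pt, Finset.mem_filter, Finset.mem_univ, true_and,
          not_not, hK1])
      (by
        intro v _
        have h5 : (nn G (pt p i) v).card ≤ (nn G univ v).card := by
          apply Finset.card_le_card
          intro w hw
          rw [mem_nn] at hw ⊢
          exact ⟨Finset.mem_univ _, hw.2⟩
        have h6 := H.inn v
        have h7 : (nb (ig p (cc C ∪ Q1) M) v).card ≤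
            ((cc C ∪ Q1).filter (fun b => M b v ≠ v ∧ p (M b v) = p v)).card := by
          refine (Finset.card_le_card (t := ((cc C ∪ Q1).filter (fun b => M b v ≠ v ∧
            p (M b v) = p v)).image (fun b => M b v)) ?_).trans Finset.card_image_le
          intro w hw
          rw [mem_nb] at hw
          obtain ⟨hw1, hw2, b, hb, hw3⟩ := hw
          have hw4 : M b v = w := by
            rcases hw3 with hw3 | hw3
            · exact hw3
            · rw [← hw3, S.mts.inv b hb w]
          rw [Finset.mem_image]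
          refine ⟨b, ?_, hw4⟩
          rw [Finset.mem_filter, hw4]
          exact ⟨hb, hw1.symm, hw2.symm⟩
        have h8 := S.inn v
        omega)
      (by
        intro b hb
        have h5 : (pt p i ∩ univ.filter (fun v => ¬ (b ∉ F v ∧ v ∉ X b ∧ K1 b v = v))).card ≤
            ((us F b ∪ X b) ∪ (univ.filter (fun v => K b v ≠ v) ∪
              univ.filter (fun v => aj h e1 e2 f b v ≠ v))).card := by
          apply Finset.card_le_card
          intro v hv
          simp only [Finset.mem_inter, mem_pt, Finset.mem_filter, Finset.mem_univ, true_and,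
            Finset.mem_union, mem_us, hK1, jn_fix] at hv ⊢
          tauto
        have h6 := Finset.card_union_le (us F b ∪ X b) (univ.filter (fun v => K b v ≠ v) ∪
              univ.filter (fun v => aj h e1 e2 f b v ≠ v))
        have h7 := Finset.card_union_le (us F b) (X b)
        have h8 := Finset.card_union_le (univ.filter (fun v => K b v ≠ v))
              (univ.filter (fun v => aj h e1 e2 f b v ≠ v))
        have h9 := H.load b
        have h10 := card_X_le XX (Finset.mem_union_right Q1 hb)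
        have h11 := L.sz b hb
        have h12 := hf.sz b hb
        have h13 := n3 i
        omega)
    refine ⟨m, hm1, ?_, hm3⟩
    intro b hb v
    rw [hm2 b hb v]
    simp only [mem_pt, Finset.mem_filter, Finset.mem_univ, true_and, not_not]
  choose m hm1 hm2 hm3 using hcol
  have hmp : ∀ i, ∀ b ∈ Q2, ∀ v, m i b v ≠ v → p (m i b v) = i := by
    intro i b hb v hv
    have h5 : m i b (m i b v) ≠ m i b v := by
      rw [(hm1 i).inv b hb v]
      exact hv.symm
    exact ((hm2 i b hb _).mp h5).1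
  have hmp' : ∀ i, ∀ b ∈ Q2, ∀ v, m i b v ≠ v → p v = i := by
    intro i b hb v hv
    exact ((hm2 i b hb _).mp hv).1
  -- all three parts together
  have hK2 : Mts G Q2 (fun b v => m (p v) b v) := by
    refine ⟨?_, ?_, ?_⟩
    · intro b hb v
      by_cases hv : m (p v) b v = v
      · simp only [hv]
      · have h5 := hmp (p v) b hb v hv
        simp only [h5]
        exact (hm1 (p v)).inv b hb v
    · intro b hb v hv
      exact (hm1 (p v)).adj b hb v hv
    · intro b hb b' hb' hne v hv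
      exact (hm1 (p v)).dis b hb b' hb' hne v hv
  have hK2f : ∀ b ∈ Q2, ∀ v, m (p v) b v ≠ v ↔ b ∉ F v ∧ v ∉ X b ∧ K1 b v = v := by
    intro b hb v
    rw [hm2 (p v) b hb v]
    simp
  have hK2p : ∀ b ∈ Q2, ∀ v, p (m (p v) b v) = p v := by
    intro b hb v
    by_cases hv : m (p v) b v = v
    · rw [hv]
    · exact hmp (p v) b hb v hv
  have hK3 : Mts G Q2 (jn K1 (fun b v => m (p v) b v)) := by
    refine jn_mts hKJ hK2 ?_ ?_
    · intro b hb v hv
      by_contra hc
      exact hv ((hK2f b hb v).mp hc).2.2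
    · intro b hb b' hb' _ v hv he
      apply (hsupp b hb v hv).2.2
      rw [he]
      exact hK2p b' hb' v
  have hdisj : Disjoint (cc C ∪ Q1) Q2 := by
    rw [Finset.disjoint_union_left]
    refine ⟨?_, P.d12⟩
    rw [cc, Finset.disjoint_union_left, Finset.disjoint_union_left]
    exact ⟨⟨P.dC2 0, P.dC2 1⟩, P.dC2 2⟩
  have hM : Mts G (cc C ∪ Q1 ∪ Q2) (gl Q2 M (jn K1 (fun b v => m (p v) b v))) := by
    refine gl_mts S.mts hK3 hdisj ?_
    intro b hb b' hb' v hv
    by_cases h5 : K1 b' v = v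
    · rw [jn_right h5]
      intro he
      have h6 : m (p v) b' v ≠ v := by
        rw [← he]
        exact hv
      apply hm3 (p v) b' hb' v h6
      refine ⟨h6.symm, (hK2p b' hb' v).symm, b, hb, Or.inl he⟩
    · rw [jn_left h5]
      by_cases h6 : K b' v = v
      · rw [hK1, jn_right h6]
        have h7 : aj h e1 e2 f b' v ≠ v := fun h7 => h5 (jn_fix.mpr ⟨h6, h7⟩)
        intro he
        apply S.nA b hb v hv
        rw [he]
        exact aj_isA h0 h7
      · rw [hK1, jn_left h6]
        exact ((L.mts.adj b' hb' v h6).2.2.2 b hb).1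
  have hMB : ∀ b, b ∉ Q2 → gl Q2 M (jn K1 (fun b v => m (p v) b v)) b = M b := by
    intro b hb
    rw [gl, if_neg hb]
  have hMQ : ∀ b ∈ Q2, gl Q2 M (jn K1 (fun b v => m (p v) b v)) b =
      jn K1 (fun b v => m (p v) b v) b := by
    intro b hb
    rw [gl, if_pos hb]
  have hC2 : ∀ i, ∀ b ∈ C i, b ∉ Q2 := fun i b hb => Finset.disjoint_left.mp (P.dC2 i) hb
  have hS := S.cv
  refine ⟨gl Q2 M (jn K1 (fun b v => m (p v) b v)), ?_, ?_, ?_, ?_⟩
  · rw [← P.tot]
    exact hM
  · refine ⟨?_, ?_, ?_, ?_⟩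
    · intro i b hb v
      rw [hMB b (hC2 i b hb)]
      exact hS.cov i b hb v
    · intro i b hb v
      rw [hMB b (hC2 i b hb)]
      exact hS.out i b hb v
    · intro i b hb v w
      rw [hMB b (hC2 i b hb)]
      exact hS.one i b hb v w
    · intro i b hb b' hb' v
      rw [hMB b (hC2 i b hb), hMB b' (hC2 i b' hb')]
      exact hS.sta i b hb b' hb' v
  · intro b hb v
    rw [← P.tot] at hb
    simp only [Finset.mem_sdiff, Finset.mem_union] at hb
    rcases hb with ⟨(hb | hb) | hb, hnb⟩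
    · exact absurd hb hnb
    · rw [hMB b (fun h5 => Finset.disjoint_left.mp P.d12 hb h5)]
      exact S.covQ b hb v
    · rw [hMQ b hb, jn_fix]
      constructor
      · rintro ⟨h5, h6⟩
        by_contra hc
        apply (hK2f b hb v).mpr ⟨fun h7 => hc (Or.inl h7), fun h7 => hc (Or.inr h7), h5⟩
        exact h6
      · intro h5
        have h6 : K1 b v = v := by
          by_contra h7
          have h8 := hsupp b hb v h7
          rcases h5 with h5 | h5
          · exact h8.1 h5
          · exact h8.2.1 h5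
        refine ⟨h6, ?_⟩
        by_contra h7
        have h8 := (hK2f b hb v).mp h7
        rcases h5 with h5 | h5
        · exact h8.1 h5
        · exact h8.2.1 h5
  · intro v w hvw hpw
    rw [← P.tot]
    by_cases h5 : isA h e1 e2 v w
    · obtain ⟨k, hk, h6⟩ := isA_aj h0 f h5
      have h7 : aj h e1 e2 f (f k) v ≠ v := by
        rw [h6]
        exact hvw.ne'
      have h8 := (aj_fr h0 hf h7).2.2
      have h9 : K1 (f k) v ≠ v := by
        rw [hK1, jn_right h8]
        exact h7
      refine ⟨f k, Finset.mem_union_right _ (hf.Q k hk), ?_⟩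
      rw [hMQ _ (hf.Q k hk), jn_left h9, hK1, jn_right h8, h6]
    · by_cases h6 : ∃ b ∈ cc C ∪ Q1, M b v = w ∨ M b w = v
      · obtain ⟨b, hb, h7⟩ := h6
        have h8 : M b v = w := by
          rcases h7 with h7 | h7
          · exact h7
          · rw [← h7, S.mts.inv b hb w]
        refine ⟨b, Finset.mem_union_left _ hb, ?_⟩
        rw [hMB b (Finset.disjoint_left.mp hdisj hb)]
        exact h8
      · have h7 : (lg G h p (cc C ∪ Q1) e1 e2 M).Adj v w := by
          refine ⟨hvw, hpw.symm, h5, ?_⟩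
          intro b hb
          constructor
          · intro h8
            exact h6 ⟨b, hb, Or.inl h8⟩
          · intro h8
            exact h6 ⟨b, hb, Or.inr h8⟩
        obtain ⟨b, hb, h8⟩ := L.all v w h7
        have h9 : K b v ≠ v := by
          rw [h8]
          exact hvw.ne'
        refine ⟨b, Finset.mem_union_right _ hb, ?_⟩
        have h10 : K1 b v ≠ v := by
          rw [hK1, jn_left h9]
          exact h9
        rw [hMQ b hb, jn_left h10, hK1, jn_left h9, h8]

end

end Pool.Agent.Work.MP_db9399_lt.helper83
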